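import Mathlib

set_option autoImplicit false

namespace Pool.Agent.Results.MP_dbb1e7_al.Counter

open Polynomial

universe u

@[ext] structure A (K : Type u) [Field K] where
  c : K
  p : K[X][X]
  q : K[X][X]

variable {K : Type u} [Field K]

noncomputable def A.d (a : A K) : K[X][X] := a.p * C X + a.q * X

noncomputable instance : Add (A K) := ⟨fun a b => ⟨a.c + b.c, a.p + b.p, a.q + b.q⟩⟩
noncomputable instance : Neg (A K) := ⟨fun a => ⟨-a.c, -a.p, -a.q⟩⟩
noncomputable instance : Zero (A K) := ⟨⟨0, 0, 0⟩⟩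
noncomputable instance : One (A K) := ⟨⟨1, 0, 0⟩⟩
noncomputable instance : Mul (A K) := ⟨fun a b => ⟨a.c * b.c,
  (C (C a.c) + a.d) * b.p + C (C b.c) * a.p, (C (C a.c) + a.d) * b.q + C (C b.c) * a.q⟩⟩

@[simp] theorem add_c (a b : A K) : (a + b).c = a.c + b.c := rfl
@[simp] theorem add_p (a b : A K) : (a + b).p = a.p + b.p := rfl
@[simp] theorem add_q (a b : A K) : (a + b).q = a.q + b.q := rfl
@[simp] theorem neg_c (a : A K) : (-a).c = -a.c := rfl
@[simp] theorem neg_p (a : A K) : (-a).p = -a.p := rfl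
@[simp] theorem neg_q (a : A K) : (-a).q = -a.q := rfl
@[simp] theorem zero_c : (0 : A K).c = 0 := rfl
@[simp] theorem zero_p : (0 : A K).p = 0 := rfl
@[simp] theorem zero_q : (0 : A K).q = 0 := rfl
@[simp] theorem one_c : (1 : A K).c = 1 := rfl
@[simp] theorem one_p : (1 : A K).p = 0 := rfl
@[simp] theorem one_q : (1 : A K).q = 0 := rfl
@[simp] theorem mul_c (a b : A K) : (a * b).c = a.c * b.c := rfl
@[simp] theorem mul_p (a b : A K) :
    (a * b).p = (C (C a.c) + a.d) * b.p + C (C b.c) * a.p := rfl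
@[simp] theorem mul_q (a b : A K) :
    (a * b).q = (C (C a.c) + a.d) * b.q + C (C b.c) * a.q := rfl

noncomputable instance : Ring (A K) := Ring.ofMinimalAxioms
  (fun a b c => by ext1 <;> simp [add_assoc])
  (fun a => by ext1 <;> simp) (fun a => by ext1 <;> simp)
  (fun a b c => by ext1 <;> simp [A.d] <;> ring)
  (fun a => by ext1 <;> simp [A.d]) (fun a => by ext1 <;> simp)
  (fun a b c => by ext1 <;> simp <;> ring)
  (fun a b c => by ext1 <;> simp [A.d] <;> ring)

noncomputable def emb : K →+* A K where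
  toFun c := ⟨c, 0, 0⟩
  map_one' := rfl
  map_mul' a b := by ext1 <;> simp
  map_zero' := rfl
  map_add' a b := by ext1 <;> simp

noncomputable instance : Algebra K (A K) :=
  emb.toAlgebra' fun c a => by ext1 <;> simp [emb, A.d, mul_comm]

theorem alg (c : K) : algebraMap K (A K) c = ⟨c, 0, 0⟩ := rfl

theorem comm_iff (a b : A K) : a * b = b * a ↔ a.d * b.p = b.d * a.p ∧ a.d * b.q = b.d * a.q := by
  rw [A.ext_iff]
  simp only [mul_c, mul_p, mul_q, mul_comm a.c, true_and]
  exact and_congr ⟨fun h => by linear_combination h, fun h => by linear_combination h⟩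
    ⟨fun h => by linear_combination h, fun h => by linear_combination h⟩

theorem fin_type : Algebra.FiniteType K (A K) := by
  classical
  refine ⟨⟨{⟨0, 1, 0⟩, ⟨0, 0, 1⟩}, eq_top_iff.2 fun a _ => ?_⟩⟩
  set S := Algebra.adjoin K (({⟨0, 1, 0⟩, ⟨0, 0, 1⟩} : Finset (A K)) : Set (A K))
  have hx : (⟨0, 1, 0⟩ : A K) ∈ S := Algebra.subset_adjoin (by simp)
  have hy : (⟨0, 0, 1⟩ : A K) ∈ S := Algebra.subset_adjoin (by simp)
  have key : ∀ r p q : K[X][X], (⟨0, p, q⟩ : A K) ∈ S → (⟨0, r * p, r * q⟩ : A K) ∈ S := by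
    intro r
    induction r using Polynomial.induction_on with
    | C f =>
      induction f using Polynomial.induction_on with
      | C k =>
        intro p q h
        convert S.mul_mem (S.algebraMap_mem k) h using 1
        ext1 <;> simp [alg, A.d]
      | add f g hf hg =>
        intro p q h
        convert S.add_mem (hf p q h) (hg p q h) using 1
        ext1 <;> simp [add_mul]
      | monomial n k ih =>
        intro p q h
        convert S.mul_mem hx (ih p q h) using 1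
        ext1 <;> simp [A.d] <;> ring
    | add f g hf hg =>
      intro p q h
      convert S.add_mem (hf p q h) (hg p q h) using 1
      ext1 <;> simp [add_mul]
    | monomial n k ih =>
      intro p q h
      convert S.mul_mem hy (ih p q h) using 1
      ext1 <;> simp [A.d] <;> ring
  convert S.add_mem (S.add_mem (S.algebraMap_mem a.c) (key a.p _ _ hx)) (key a.q _ _ hy) using 1
  ext1 <;> simp [alg]

theorem center_eq : Subalgebra.center K (A K) = ⊥ := by
  refine eq_bot_iff.2 fun a ha => ?_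
  rw [Subalgebra.mem_center_iff] at ha
  have h1 := ((comm_iff _ _).1 (ha ⟨0, 1, 0⟩)).2
  have h2 := ((comm_iff _ _).1 (ha ⟨0, 0, 1⟩)).1
  simp [A.d] at h1 h2
  exact Algebra.mem_bot.2 ⟨a.c, by ext1 <;> simp [alg, h1, h2]⟩

theorem prim (a : A K) (ha : a ∉ Subalgebra.center K (A K)) : ∃ p q : K[X][X], ¬ (p = 0 ∧ q = 0) ∧
    ∀ b : A K, a * b = b * a ↔ ∃ r, b.p = r * p ∧ b.q = r * q := by
  have h0 : a.p ≠ 0 ∨ a.q ≠ 0 := by
    by_contra h
    push Not at h
    rw [center_eq] at ha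
    exact ha (Algebra.mem_bot.2 ⟨a.c, by ext1 <;> simp [alg, h.1, h.2]⟩)
  obtain ⟨p, q, h, hr, e1, e2⟩ : ∃ p q h, IsRelPrime p q ∧ h * p = a.p ∧ h * q = a.q :=
    h0.elim (fun h => UniqueFactorizationMonoid.exists_reduced_factors _ h _)
      (UniqueFactorizationMonoid.exists_reduced_factors' _ _)
  have hpq : ¬ (p = 0 ∧ q = 0) := fun ⟨a1, a2⟩ => by simp [← e1, ← e2, a1, a2] at h0
  have hh : h ≠ 0 := fun e => by simp [← e1, ← e2, e] at h0
  refine ⟨p, q, hpq, fun b => ?_⟩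
  rw [comm_iff]
  simp only [A.d, ← e1, ← e2]
  refine ⟨fun ⟨a1, a2⟩ => ?_, fun ⟨r, a1, a2⟩ => by rw [a1, a2]; constructor <;> ring⟩
  have b1 : h * (X * (q * b.p - b.q * p)) = 0 := by linear_combination a1
  have b2 : b.p * q = b.q * p := by
    simp only [mul_eq_zero, hh, X_ne_zero, false_or] at b1
    linear_combination b1
  by_cases hp : p = 0
  · have hq : q ≠ 0 := fun e => hpq ⟨hp, e⟩
    obtain ⟨r, hr'⟩ := hr.symm.dvd_of_dvd_mul_right (⟨b.p, by rw [← b2, mul_comm]⟩ : q ∣ b.q * p)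
    refine ⟨r, ?_, by rw [hr', mul_comm]⟩
    simpa [hp, hq] using b2
  · obtain ⟨r, hr'⟩ := hr.dvd_of_dvd_mul_right (⟨b.q, by rw [b2, mul_comm]⟩ : p ∣ b.p * q)
    refine ⟨r, by rw [hr', mul_comm], mul_right_cancel₀ hp ?_⟩
    rw [← b2, hr']
    ring

theorem transc (p q : K[X][X]) :
    ∃ v : K[X][X], ∀ f : K[X], p * C X + q * X ∣ aeval v f → f = 0 := by
  by_contra h
  push Not at h
  obtain ⟨f, f1, f2⟩ := h (C X)
  obtain ⟨g, g1, g2⟩ := h X
  rw [show aeval (C X : K[X][X]) f = C f from by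
    rw [← algebraMap_eq, aeval_algebraMap_apply, aeval_X_left_apply]] at f1
  have e := eq_C_of_natDegree_eq_zero (Nat.le_zero.1 ((natDegree_le_of_dvd f1
    (C_ne_zero.2 f2)).trans (natDegree_C f).le))
  rw [e, show aeval (X : K[X][X]) g = g.map C from by
    rw [aeval_def, map, ← algebraMap_eq, ← algebraMap_eq]; rfl, C_dvd_iff_dvd_coeff] at g1
  have g3 := g1 g.natDegree
  rw [coeff_map] at g3
  have g4 := (isUnit_of_dvd_unit g3 (isUnit_C.2 (Ne.isUnit (leadingCoeff_ne_zero.2 g2)))).map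
    (evalRingHom 0)
  simp [mul_coeff_zero] at g4

theorem result (K : Type u) [Field K] : ∃ (B : Type u) (_ : Ring B) (_ : Algebra K B),
    Algebra.FiniteType K B ∧ Subalgebra.center K B = ⊥ ∧ (⊥ : Subalgebra K B) ≠ ⊤ ∧ Nontrivial B ∧
    (∀ a ∉ Subalgebra.center K B, ∀ b ∈ Subalgebra.centralizer K ({a} : Set B),
      ∀ c ∈ Subalgebra.centralizer K ({a} : Set B), b * c = c * b) ∧
    ∀ a ∉ Subalgebra.center K B, ¬ IsNoetherianRing (Subalgebra.centralizer K ({a} : Set B)) := by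
  refine ⟨A K, inferInstance, inferInstance, fin_type, center_eq, fun h => ?_,
    ⟨⟨0, 1, fun h => zero_ne_one (congrArg A.c h)⟩⟩, fun a ha b hb c hc => ?_, fun a ha hN => ?_⟩
  · obtain ⟨c, hc⟩ := Algebra.mem_bot.1 (h ▸ Algebra.mem_top : (⟨0, 1, 0⟩ : A K) ∈ (⊥ : Subalgebra K _))
    exact zero_ne_one (congrArg A.p hc)
  · obtain ⟨p, q, -, h⟩ := prim a ha
    obtain ⟨r, b1, b2⟩ := (h b).1 (hb a rfl)
    obtain ⟨r', c1, c2⟩ := (h c).1 (hc a rfl)
    rw [comm_iff]
    simp only [A.d, b1, b2, c1, c2]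
    constructor <;> ring
  · obtain ⟨p, q, hpq, h⟩ := prim a ha
    obtain ⟨v, hv⟩ := transc p q
    let I : ℕ → Ideal (Subalgebra.centralizer K ({a} : Set (A K))) := fun k =>
      { carrier := {b | b.1.c = 0 ∧ ∃ f ∈ degreeLT K k, ∃ r,
          b.1.p = (aeval v f + (p * C X + q * X) * r) * p ∧
          b.1.q = (aeval v f + (p * C X + q * X) * r) * q}
        add_mem' := by
          rintro b c ⟨b0, f, f1, r, b1, b2⟩ ⟨c0, g, g1, s, c1, c2⟩
          refine ⟨by simp [b0, c0], f + g, add_mem f1 g1, r + s, ?_, ?_⟩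
          · simp [b1, c1]; ring
          · simp [b2, c2]; ring
        zero_mem' := ⟨rfl, 0, zero_mem _, 0, by simp, by simp⟩
        smul_mem' := by
          rintro e b ⟨b0, f, f1, r, b1, b2⟩
          obtain ⟨s, e1, e2⟩ := (h e).1 (e.2 a rfl)
          refine ⟨by simp [b0], e.1.c • f, Submodule.smul_mem _ _ f1,
            C (C e.1.c) * r + s * (aeval v f + (p * C X + q * X) * r), ?_, ?_⟩
          · simp [b0, b1, A.d, e1, e2, Algebra.smul_def]; ring
          · simp [b0, b2, A.d, e1, e2, Algebra.smul_def]; ring }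
    obtain ⟨n, hn⟩ := monotone_stabilizes_iff_noetherian.2 hN ⟨I, fun k l hkl b ⟨b0, f, f1, b1⟩ =>
      ⟨b0, f, degreeLT_mono hkl f1, b1⟩⟩
    have m : (⟨⟨0, v ^ n * p, v ^ n * q⟩, fun _ e => e ▸ (h _).2 ⟨v ^ n, rfl, rfl⟩⟩ :
        Subalgebra.centralizer K ({a} : Set (A K))) ∈ I (n + 1) :=
      ⟨rfl, X ^ n, mem_degreeLT.2 (by rw [degree_X_pow]; exact_mod_cast n.lt_succ_self), 0,
        by simp, by simp⟩
    obtain ⟨-, f, f1, r, b1, b2⟩ := (hn (n + 1) n.le_succ).ge m
    have e : v ^ n = aeval v f + (p * C X + q * X) * r := by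
      by_cases hp : p = 0
      · exact mul_right_cancel₀ (fun hq => hpq ⟨hp, hq⟩) b2
      · exact mul_right_cancel₀ hp b1
    have := sub_eq_zero.1 (hv (X ^ n - f) ⟨r, by simp [e]⟩)
    rw [← this, mem_degreeLT, degree_X_pow] at f1
    exact lt_irrefl _ f1

end Pool.Agent.Results.MP_dbb1e7_al.Counter
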